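import Pool.Agent.LKT.Stmts

/-!
# Squad LKT, row NVD (helper35): common non vanishing sets are dense
-/

set_option autoImplicit false

namespace Pool.Agent.LKT.H35

open Pool.Agent.LCK

/-- NVD. -/
theorem nvd : NvdStmt := by
  intro M h z0 hp h0 x
  choose p hpp using fun m => hp m x (z0 - x)
  have hne : ∀ m, p m ≠ 0 := by
    intro m hm
    apply h0 m
    have h1 := hpp m 1
    rw [hm, Polynomial.eval_zero, one_smul, add_sub_cancel] at h1
    exact h1
  have hfin : {t : ℝ | ∀ m, (p m).eval t ≠ 0}ᶜ.Finite := by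
    refine (Set.finite_iUnion fun m => Polynomial.finite_setOf_isRoot (hne m)).subset ?_
    intro t ht
    rw [Set.mem_compl_iff, Set.mem_setOf_eq] at ht
    push Not at ht
    obtain ⟨m, hm⟩ := ht
    exact Set.mem_iUnion.2 ⟨m, hm⟩
  have hd : Dense {t : ℝ | ∀ m, (p m).eval t ≠ 0} := by
    have h1 := hfin.countable.dense_compl ℝ
    rwa [compl_compl] at h1
  have hc : Continuous (fun t : ℝ => x + t • (z0 - x)) := by fun_prop
  have h3 := map_mem_closure hc (hd 0) (t := {x : Fin 8 → E3 | ∀ m, h m x ≠ 0}) (by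
    intro t ht m
    rw [hpp]
    exact ht m)
  simpa using h3

end Pool.Agent.LKT.H35
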